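import Pool.Agent.Work.MP_bec1e1_lv_helper15.Tools0
import Pool.Agent.Work.MP_bec1e1_TOOL_h13.Cuts

/-!
# Deterministic tools: SPLIT, SPLITGE, MONGE, ROWC, LIP
-/

set_option autoImplicit false

open scoped BigOperators

namespace Pool.Agent.LCSV

open Pool.Agent.LCSE Pool.Agent.LCST

lemma sumL_cast {α : Type*} (xs vs : List (List α)) :
    ((sumL xs vs : ℕ) : ℝ) = (List.zipWith (fun x v => (L x v : ℝ)) xs vs).sum := by
  induction xs generalizing vs with
  | nil => simp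
  | cons x xs ih =>
    cases vs with
    | nil => simp
    | cons v vs => simp [ih]

theorem stmt_SPLIT : Stmt_SPLIT := by
  intro k xs y hxs
  obtain ⟨ys, h1, h2, h3⟩ := L_flatten_split xs hxs y
  exact ⟨ys, h1, h2, by rw [h3, sumL_cast]⟩

theorem stmt_SPLITGE : Stmt_SPLITGE := by
  intro k xs vs _
  rw [← sumL_cast]
  exact_mod_cast L_flatten_ge xs vs

section
variable {α : Type*}

open Classical in
lemma L_single (x : α) (v : List α) : L [x] v = if x ∈ v then 1 else 0 := by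
  split_ifs with h
  · apply le_antisymm
    · exact (L_le_left _ _).trans (by simp)
    · have := le_L (u := [x]) (List.Sublist.refl [x]) (List.singleton_sublist.mpr h)
      simpa using this
  · rw [← Nat.le_zero]
    apply L_le
    intro l h1 h2
    rcases List.sublist_cons_iff.mp h1 with h' | ⟨r, hr, h'⟩
    · simpa using h'.length_le
    · subst hr
      exact absurd (h2.subset (List.mem_cons_self)) h

/-- Monge inequality -/
theorem L_monge (X Y₁ Y₂ Y₃ : List α) :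
    L X Y₂ + L X (Y₁ ++ Y₂ ++ Y₃) ≤ L X (Y₁ ++ Y₂) + L X (Y₂ ++ Y₃) := by
  classical
  induction X generalizing Y₁ Y₂ Y₃ with
  | nil => simp
  | cons x X ih =>
    have hs : ∀ Y : List α, ∃ P Q, Y = P ++ Q ∧ L (x :: X) Y = L [x] P + L X Q := by
      intro Y
      obtain ⟨g, _, h⟩ := L_append_split [x] X Y
      exact ⟨Y.take g, Y.drop g, (List.take_append_drop g Y).symm, h⟩
    have hge : ∀ P Q : List α, L [x] P + L X Q ≤ L (x :: X) (P ++ Q) := by
      intro P Q
      exact L_append_ge [x] X P Q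
    obtain ⟨Q1, Q2, hQ, hQ'⟩ := hs Y₂
    obtain ⟨P1, P2, hP, hP'⟩ := hs (Y₁ ++ Y₂ ++ Y₃)
    rw [hQ', hP']
    subst hQ
    have h0 : (Y₁ ++ Q1) ++ (Q2 ++ Y₃) = P1 ++ P2 := by
      rw [← hP]; simp
    rcases List.append_eq_append_iff.mp h0 with ⟨m, h1, h2⟩ | ⟨m, h1, h2⟩
    · -- P1 = Y₁ Q1 m, Q2 Y₃ = m P2
      have e1 : Y₁ ++ (Q1 ++ Q2) = (Y₁ ++ Q1) ++ Q2 := by simp
      have e2 : Q1 ++ Q2 ++ Y₃ = (Q1 ++ m) ++ P2 := by
        rw [List.append_assoc, h2]; simp
      rw [e1, e2]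
      refine le_trans ?_ (Nat.add_le_add (hge _ _) (hge _ _))
      rw [h1]
      have : L [x] Q1 + L [x] (Y₁ ++ Q1 ++ m) ≤ L [x] (Y₁ ++ Q1) + L [x] (Q1 ++ m) := by
        simp only [L_single, List.mem_append]
        by_cases a1 : x ∈ Y₁ <;> by_cases a2 : x ∈ Q1 <;> by_cases a3 : x ∈ m <;>
          simp [a1, a2, a3]
      omega
    · -- Y₁ Q1 = P1 m, P2 = m Q2 Y₃
      have e1 : Y₁ ++ (Q1 ++ Q2) = P1 ++ (m ++ Q2) := by
        rw [← List.append_assoc, h1]; simp
      have e2 : Q1 ++ Q2 ++ Y₃ = Q1 ++ (Q2 ++ Y₃) := by simp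
      rw [e1, e2]
      refine le_trans ?_ (Nat.add_le_add (hge _ _) (hge _ _))
      have h3 := ih m Q2 Y₃
      rw [h2, ← List.append_assoc]
      omega

end

theorem stmt_MONGE : Stmt_MONGE := fun _ X Y₁ Y₂ Y₃ => L_monge X Y₁ Y₂ Y₃

theorem stmt_ROWC : Stmt_ROWC := by
  intro k A X B Y
  have := L_monge Y A X B
  rw [L_comm Y, L_comm Y, L_comm Y, L_comm Y] at this
  omega

theorem L_change_one {α : Type*} (l₁ l₂ y : List α) (e e' : α) :
    L (l₁ ++ e :: l₂) y ≤ L (l₁ ++ e' :: l₂) y + 1 := by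
  obtain ⟨l, hl, h1, h2⟩ := exists_L (l₁ ++ e :: l₂) y
  rw [← hl]
  obtain ⟨a, b, rfl, h3, h4⟩ := List.sublist_append_iff.mp h1
  rcases List.sublist_cons_iff.mp h4 with h | ⟨r, hr, h⟩
  · exact (le_L (h3.append (h.trans (List.sublist_cons_self e' l₂))) h2).trans (Nat.le_succ _)
  · subst hr
    have h5 : (a ++ r).Sublist y :=
      ((List.Sublist.refl a).append (List.sublist_cons_self e r)).trans h2
    have := le_L (h3.append (h.trans (List.sublist_cons_self e' l₂))) h5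
    simp only [List.length_append, List.length_cons] at this ⊢
    omega

theorem stmt_LIP : Stmt_LIP := by
  intro k l₁ l₂ y e e'
  have h1 := L_change_one l₁ l₂ y e e'
  have h2 := L_change_one l₁ l₂ y e' e
  have h1' : (L (l₁ ++ e :: l₂) y : ℝ) ≤ L (l₁ ++ e' :: l₂) y + 1 := by exact_mod_cast h1
  have h2' : (L (l₁ ++ e' :: l₂) y : ℝ) ≤ L (l₁ ++ e :: l₂) y + 1 := by exact_mod_cast h2
  rw [abs_le]
  constructor <;> linarith

end Pool.Agent.LCSV
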