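import Pool.Agent.Work.MP_bec1e1_lv_helper15.Tools0
import Pool.Agent.Work.MP_bec1e1_TOOL_h13.Cuts

/-!
# Concentration of the LCS of independent cells and a random word; sums over pairs of lists
-/

set_option autoImplicit false

open Filter Topology
open scoped BigOperators

namespace Pool.Agent.LCSV.TP

open Pool.Agent.LCSE Pool.Agent.LCSV

variable {k : ℕ}

/-! ### small API for `Exc` -/

lemma Exc_mono {s T : ℕ} {g : List (Fin k) → ℝ} (hg : ∀ w, w.length = s → 0 ≤ g w)
    {f f' : List (List (Fin k)) → ℝ}
    (h : ∀ xs, xs.length = T → (∀ x ∈ xs, x.length = s) → f xs ≤ f' xs) :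
    Exc k s g T f ≤ Exc k s g T f' := by
  induction T generalizing f f' with
  | zero => exact h [] rfl (by simp)
  | succ T ih =>
    show Ex k s (fun w => g w * Exc k s g T fun l => f (w :: l)) ≤
      Ex k s (fun w => g w * Exc k s g T fun l => f' (w :: l))
    refine Ex_mono fun w hw => mul_le_mul_of_nonneg_left (ih fun xs hx hx' => ?_) (hg w hw)
    refine h _ (by simp [hx]) fun x hx'' => ?_
    rcases List.mem_cons.mp hx'' with rfl | h3
    · exact hw
    · exact hx' x h3

lemma Exc_add (s T : ℕ) (g : List (Fin k) → ℝ) (f f' : List (List (Fin k)) → ℝ) :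
    Exc k s g T (fun xs => f xs + f' xs) = Exc k s g T f + Exc k s g T f' := by
  induction T generalizing f f' with
  | zero => rfl
  | succ T ih =>
    show Ex k s (fun w => g w * Exc k s g T fun l => f (w :: l) + f' (w :: l)) =
      Ex k s (fun w => g w * Exc k s g T fun l => f (w :: l)) +
      Ex k s (fun w => g w * Exc k s g T fun l => f' (w :: l))
    rw [← Ex_add]
    refine Ex_congr fun w _ => ?_
    rw [ih (fun l => f (w :: l)) (fun l => f' (w :: l)), mul_add]

lemma Exc_const_mul (s T : ℕ) (g : List (Fin k) → ℝ) (c : ℝ) (f : List (List (Fin k)) → ℝ) :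
    Exc k s g T (fun xs => c * f xs) = c * Exc k s g T f := by
  induction T generalizing f with
  | zero => rfl
  | succ T ih =>
    show Ex k s (fun w => g w * Exc k s g T fun l => c * f (w :: l)) =
      c * Ex k s (fun w => g w * Exc k s g T fun l => f (w :: l))
    rw [← Ex_const_mul]
    refine Ex_congr fun w _ => ?_
    rw [ih (fun l => f (w :: l))]; ring

lemma Exc_const {s : ℕ} {g : List (Fin k) → ℝ} (hg : IsDens k s g) (T : ℕ) (c : ℝ) :
    Exc k s g T (fun _ => c) = c := by
  induction T with
  | zero => rfl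
  | succ T ih =>
    show Ex k s (fun w => g w * Exc k s g T fun _ => c) = c
    rw [ih, Ex_mul_const, hg.one, one_mul]

lemma ind_nonneg (P : Prop) : 0 ≤ ind P := by unfold ind; split_ifs <;> norm_num

lemma ind_le_one (P : Prop) : ind P ≤ 1 := by unfold ind; split_ifs <;> norm_num

lemma ind_mono {P Q : Prop} (h : P → Q) : ind P ≤ ind Q := by
  unfold ind; split_ifs with h1 h2 <;> first | exact absurd (h h1) h2 | norm_num

lemma ind_of {P : Prop} (h : P) : ind P = 1 := by unfold ind; rw [if_pos h]

lemma ind_of_not {P : Prop} (h : ¬ P) : ind P = 0 := by unfold ind; rw [if_neg h]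

/-! ### concentration -/

lemma L_block_le (A B w w' y : List (Fin k)) : L (A ++ w ++ B) y ≤ L (A ++ w' ++ B) y + w.length := by
  have h1 : L (A ++ w ++ B) y ≤ L (A ++ B) y + w.length := by
    obtain ⟨l, hl, h1, h2⟩ := exists_L (A ++ w ++ B) y
    rw [← hl]
    obtain ⟨l12, l3, rfl, h3, h4⟩ := List.sublist_append_iff.mp h1
    obtain ⟨l1, l2, rfl, h5, h6⟩ := List.sublist_append_iff.mp h3
    have h7 : (l1 ++ l3).Sublist y := by
      refine List.Sublist.trans ?_ h2
      exact (List.sublist_append_left l1 l2).append (List.Sublist.refl l3)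
    have := le_L (h5.append h4) h7
    have := h6.length_le
    simp only [List.length_append] at *
    omega
  refine h1.trans (Nat.add_le_add_right (L_mono ?_ (List.Sublist.refl _)) _)
  exact (List.sublist_append_left A w').append (List.Sublist.refl B)

/-- mean over `y` -/
lemma block_diff (hk : 0 < k) (b : ℕ) (l₁ l₂ : List (List (Fin k))) (w w' : List (Fin k)) (s : ℕ)
    (hw : w.length = s) (hw' : w'.length = s) :
    |Ex k b (fun y => (L (l₁ ++ w :: l₂).flatten y : ℝ)) -
      Ex k b (fun y => (L (l₁ ++ w' :: l₂).flatten y : ℝ))| ≤ s := by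
  have key : ∀ u u' : List (Fin k), u.length = s →
      Ex k b (fun y => (L (l₁ ++ u :: l₂).flatten y : ℝ)) ≤
      Ex k b (fun y => (L (l₁ ++ u' :: l₂).flatten y : ℝ)) + s := by
    intro u u' hu
    have h1 : Ex k b (fun y => (L (l₁ ++ u' :: l₂).flatten y : ℝ)) + s =
        Ex k b (fun y => (L (l₁ ++ u' :: l₂).flatten y : ℝ) + s) := by
      rw [Ex_add, Ex_const hk]
    rw [h1]
    refine Ex_mono fun y _ => ?_
    have h2 := L_block_le l₁.flatten l₂.flatten u u' y
    rw [hu] at h2
    have h3 : ∀ v : List (Fin k), (l₁ ++ v :: l₂).flatten = l₁.flatten ++ v ++ l₂.flatten := by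
      intro v; simp
    rw [h3, h3]
    exact_mod_cast h2
  rw [abs_le]
  constructor
  · linarith [key w' w hw']
  · linarith [key w w' hw]

lemma conc (hMGF : Stmt_MGF) (hMCD : Stmt_MCD) (hk : 0 < k) {l T b : ℕ} (hl : 0 < l)
    (hb : 0 < b) {g : List (Fin k) → ℝ} (hg : IsDens k l g) {t : ℝ} (ht : 0 < t) (hT : 0 < T) :
    (Exc k l g T fun xs => Ex k b fun y => ind ((L xs.flatten y : ℝ) ≤
      (Exc k l g T fun xs => Ex k b fun y => (L xs.flatten y : ℝ)) - t * l * T)) ≤
    Real.exp (-(t ^ 2 * T / 2)) + Real.exp (-(t ^ 2 * l ^ 2 * T ^ 2 / (2 * b))) := by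
  have hl' : (0 : ℝ) < l := by exact_mod_cast hl
  have hT' : (0 : ℝ) < T := by exact_mod_cast hT
  have hb' : (0 : ℝ) < b := by exact_mod_cast hb
  set fm : List (List (Fin k)) → ℝ := fun xs => Ex k b fun y => (L xs.flatten y : ℝ) with hfm
  set m : ℝ := Exc k l g T fm with hm
  -- first part
  have h1 : Exc k l g T (fun xs => ind (fm xs ≤ m - t * l * T / 2)) ≤
      Real.exp (-(t ^ 2 * T / 2)) := by
    have h2 := hMGF k l T g fm l hk hg hl'.le
      (fun l₁ l₂ w w' _ _ _ hw hw' => block_diff hk b l₁ l₂ w w' l hw hw') (-(2 * t / l))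
    have h3 : ∀ xs : List (List (Fin k)), ind (fm xs ≤ m - t * l * T / 2) ≤
        Real.exp (-(t ^ 2 * T)) * Real.exp (-(2 * t / l) * (fm xs - m)) := by
      intro xs
      by_cases hx : fm xs ≤ m - t * l * T / 2
      · rw [ind_of hx, ← Real.exp_add]
        apply Real.one_le_exp
        have h4 : 2 * t / l * (m - fm xs) ≥ 2 * t / l * (t * l * T / 2) :=
          mul_le_mul_of_nonneg_left (by linarith) (by positivity)
        have h5 : 2 * t / l * (t * l * T / 2) = t ^ 2 * T := by field_simp
        nlinarith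
      · rw [ind_of_not hx]; positivity
    calc Exc k l g T (fun xs => ind (fm xs ≤ m - t * l * T / 2))
        ≤ Exc k l g T (fun xs => Real.exp (-(t ^ 2 * T)) *
            Real.exp (-(2 * t / l) * (fm xs - m))) := Exc_mono hg.nonneg fun xs _ _ => h3 xs
      _ = Real.exp (-(t ^ 2 * T)) * Exc k l g T (fun xs =>
            Real.exp (-(2 * t / l) * (fm xs - m))) := Exc_const_mul _ _ _ _ _
      _ ≤ Real.exp (-(t ^ 2 * T)) * Real.exp ((-(2 * t / l)) ^ 2 * l ^ 2 * T / 8) :=
          mul_le_mul_of_nonneg_left h2 (Real.exp_pos _).le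
      _ = Real.exp (-(t ^ 2 * T / 2)) := by
          rw [← Real.exp_add]; congr 1; field_simp; ring
  -- second part
  have h2 : ∀ xs : List (List (Fin k)), Ex k b (fun y =>
      ind ((L xs.flatten y : ℝ) ≤ fm xs - t * l * T / 2)) ≤
      Real.exp (-(t ^ 2 * l ^ 2 * T ^ 2 / (2 * b))) := by
    intro xs
    have h3 := (hMCD k 0 b (fun _ y => (L xs.flatten y : ℝ)) 1 hk one_pos
      (by
        intro x x' y _ _ _ _
        simp)
      (by
        intro x y y' _ _ _ h
        obtain ⟨l₁, l₂, e, e', rfl, rfl⟩ := h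
        have h4 := L_block_le l₁ l₂ [e] [e'] xs.flatten
        have h5 := L_block_le l₁ l₂ [e'] [e] xs.flatten
        simp only [List.append_assoc, List.singleton_append, List.length_singleton] at h4 h5
        rw [L_comm _ xs.flatten, L_comm _ xs.flatten] at h4 h5
        have h4' : (L xs.flatten (l₁ ++ e :: l₂) : ℝ) ≤ L xs.flatten (l₁ ++ e' :: l₂) + 1 := by
          exact_mod_cast h4
        have h5' : (L xs.flatten (l₁ ++ e' :: l₂) : ℝ) ≤ L xs.flatten (l₁ ++ e :: l₂) + 1 := by
          exact_mod_cast h5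
        rw [abs_le]
        constructor <;> linarith) (t * l * T / 2) (by positivity)).2
    simp only [Ex_zero] at h3
    refine h3.trans (le_of_eq ?_)
    congr 1
    push_cast
    field_simp
    ring
  calc (Exc k l g T fun xs => Ex k b fun y => ind ((L xs.flatten y : ℝ) ≤ m - t * l * T))
      ≤ Exc k l g T (fun xs => ind (fm xs ≤ m - t * l * T / 2) +
          Real.exp (-(t ^ 2 * l ^ 2 * T ^ 2 / (2 * b)))) := by
        refine Exc_mono hg.nonneg fun xs _ _ => ?_
        have h3 : ∀ y : List (Fin k), ind ((L xs.flatten y : ℝ) ≤ m - t * l * T) ≤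
            ind (fm xs ≤ m - t * l * T / 2) + ind ((L xs.flatten y : ℝ) ≤ fm xs - t * l * T / 2) := by
          intro y
          by_cases hx : fm xs ≤ m - t * l * T / 2
          · rw [ind_of hx]
            linarith [ind_le_one ((L xs.flatten y : ℝ) ≤ m - t * l * T),
              ind_nonneg ((L xs.flatten y : ℝ) ≤ fm xs - t * l * T / 2)]
          · rw [ind_of_not hx, zero_add]
            apply ind_mono
            intro hy
            have hx := not_le.mp hx
            linarith
        calc Ex k b (fun y => ind ((L xs.flatten y : ℝ) ≤ m - t * l * T))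
            ≤ Ex k b (fun y => ind (fm xs ≤ m - t * l * T / 2) +
                ind ((L xs.flatten y : ℝ) ≤ fm xs - t * l * T / 2)) := Ex_mono fun y _ => h3 y
          _ = ind (fm xs ≤ m - t * l * T / 2) +
                Ex k b (fun y => ind ((L xs.flatten y : ℝ) ≤ fm xs - t * l * T / 2)) := by
              rw [Ex_add, Ex_const hk]
          _ ≤ _ := by linarith [h2 xs]
    _ = Exc k l g T (fun xs => ind (fm xs ≤ m - t * l * T / 2)) +
          Real.exp (-(t ^ 2 * l ^ 2 * T ^ 2 / (2 * b))) := by
        rw [Exc_add, Exc_const hg]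
    _ ≤ _ := by linarith

/-! ### lists and functions on `Fin T` -/

lemma zipWith_sum_eq {α β : Type*} (f : α → β → ℝ) (T : ℕ) (xs : List α) (vs : List β)
    (h1 : xs.length = T) (h2 : vs.length = T) :
    (List.zipWith f xs vs).sum = ∑ i : Fin T, f (xs.get (i.cast h1.symm)) (vs.get (i.cast h2.symm)) := by
  subst h1
  have h3 : List.zipWith f xs vs =
      List.ofFn (fun i : Fin xs.length => f (xs.get i) (vs.get (i.cast h2.symm))) := by
    apply List.ext_get
    · simp [h2]
    · intro n h4 h5
      simp
  rw [h3, List.sum_ofFn]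
  rfl

lemma zipWith_sum_mono {α β : Type*} (f f' : α → β → ℝ) (xs : List α) (vs : List β)
    (h : ∀ x ∈ xs, ∀ v ∈ vs, f x v ≤ f' x v) :
    (List.zipWith f xs vs).sum ≤ (List.zipWith f' xs vs).sum := by
  induction xs generalizing vs with
  | nil => simp
  | cons x xs ih =>
    cases vs with
    | nil => simp
    | cons v vs =>
      simp only [List.zipWith_cons_cons, List.sum_cons]
      exact add_le_add (h x (by simp) v (by simp))
        (ih vs fun x' hx' v' hv' => h x' (by simp [hx']) v' (by simp [hv']))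

lemma zipWith_sum_add {α β : Type*} (f f' : α → β → ℝ) (xs : List α) (vs : List β) :
    (List.zipWith (fun x v => f x v + f' x v) xs vs).sum =
      (List.zipWith f xs vs).sum + (List.zipWith f' xs vs).sum := by
  induction xs generalizing vs with
  | nil => simp
  | cons x xs ih =>
    cases vs with
    | nil => simp
    | cons v vs =>
      simp only [List.zipWith_cons_cons, List.sum_cons, ih]
      ring

lemma zipWith_sum_le_length {α β : Type*} (f : α → β → ℝ) (hf : ∀ x v, f x v ≤ 1) (xs : List α)
    (vs : List β) : (List.zipWith f xs vs).sum ≤ xs.length := by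
  induction xs generalizing vs with
  | nil => simp
  | cons x xs ih =>
    cases vs with
    | nil => simp; positivity
    | cons v vs =>
      simp only [List.zipWith_cons_cons, List.sum_cons, List.length_cons]
      push_cast
      linarith [hf x v, ih vs]

lemma zipWith_length_sum {α β : Type*} (xs : List α) (vs : List (List β))
    (h : vs.length = xs.length) :
    (List.zipWith (fun _ v => ((v.length : ℕ) : ℝ)) xs vs).sum = (vs.flatten.length : ℝ) := by
  induction xs generalizing vs with
  | nil =>
    have : vs = [] := List.length_eq_zero_iff.mp (by simpa using h)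
    simp [this]
  | cons x xs ih =>
    cases vs with
    | nil => simp at h
    | cons v vs =>
      simp only [List.zipWith_cons_cons, List.sum_cons, List.flatten_cons, List.length_append]
      rw [ih vs (by simpa using h)]
      push_cast; ring

/-- upper deviations of one window -/
lemma upper_dev (hMCD : Stmt_MCD) {k : ℕ} (hk2 : 2 ≤ k) (hP : PhiFacts k) {δ : ℝ} (hδ : 0 < δ)
    {l : ℕ} (hl : 0 < l) (c : ℕ) :
    (Ex k l fun x => Ex k c fun v => ind (Phi k l (c : ℝ) + δ * l < (L x v : ℝ))) ≤
      Real.exp (-(2 * δ ^ 2 / (k + 1) * l)) := by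
  have hk : 0 < k := by omega
  have hl' : (0 : ℝ) < l := by exact_mod_cast hl
  rcases le_or_gt ((k : ℝ) * l) c with hc | hc
  · -- saturated
    have h1 : Phi k l (c : ℝ) = l := by
      have h2 := hP.hom l 1 ((c : ℝ) / l) hl'.le zero_le_one (by positivity)
      rw [mul_one, mul_div_cancel₀ _ hl'.ne'] at h2
      rw [h2, hP.sat _ ((le_div_iff₀ hl').mpr hc), mul_one]
    have h3 : ∀ x : List (Fin k), x.length = l → ∀ v : List (Fin k),
        ind (Phi k l (c : ℝ) + δ * l < (L x v : ℝ)) = 0 := by
      intro x hx v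
      apply ind_of_not
      have : (L x v : ℝ) ≤ l := by exact_mod_cast hx ▸ L_le_left x v
      rw [h1]
      have := mul_pos hδ hl'
      linarith
    have h4 : (Ex k l fun x => Ex k c fun v => ind (Phi k l (c : ℝ) + δ * l < (L x v : ℝ))) = 0 := by
      calc _ = Ex k l (fun _ => (0 : ℝ)) := by
            refine Ex_congr fun x hx => ?_
            rw [Ex_congr (fun v _ => h3 x hx v), Ex_zero_fun]
        _ = 0 := Ex_zero_fun l
    rw [h4]; exact (Real.exp_pos _).le
  · have h1 := (hMCD k l c (fun x v => (L x v : ℝ)) 1 hk one_pos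
      (by
        intro x x' y _ _ _ h
        obtain ⟨l₁, l₂, e, e', rfl, rfl⟩ := h
        have h4 := L_block_le l₁ l₂ [e] [e'] y
        have h5 := L_block_le l₁ l₂ [e'] [e] y
        simp only [List.append_assoc, List.singleton_append, List.length_singleton] at h4 h5
        have h4' : (L (l₁ ++ e :: l₂) y : ℝ) ≤ L (l₁ ++ e' :: l₂) y + 1 := by exact_mod_cast h4
        have h5' : (L (l₁ ++ e' :: l₂) y : ℝ) ≤ L (l₁ ++ e :: l₂) y + 1 := by exact_mod_cast h5
        rw [abs_le]
        constructor <;> linarith)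
      (by
        intro x y y' _ _ _ h
        obtain ⟨l₁, l₂, e, e', rfl, rfl⟩ := h
        have h4 := L_block_le l₁ l₂ [e] [e'] x
        have h5 := L_block_le l₁ l₂ [e'] [e] x
        simp only [List.append_assoc, List.singleton_append, List.length_singleton] at h4 h5
        rw [L_comm _ x, L_comm _ x] at h4 h5
        have h4' : (L x (l₁ ++ e :: l₂) : ℝ) ≤ L x (l₁ ++ e' :: l₂) + 1 := by exact_mod_cast h4
        have h5' : (L x (l₁ ++ e' :: l₂) : ℝ) ≤ L x (l₁ ++ e :: l₂) + 1 := by exact_mod_cast h5
        rw [abs_le]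
        constructor <;> linarith) (δ * l) (by positivity)).1
    have hF : (Ex k l fun x => Ex k c fun y => (L x y : ℝ)) ≤ Phi k l (c : ℝ) := hP.F_le l c
    calc (Ex k l fun x => Ex k c fun v => ind (Phi k l (c : ℝ) + δ * l < (L x v : ℝ)))
        ≤ Ex k l fun x => Ex k c fun v =>
            ind ((Ex k l fun x => Ex k c fun y => (L x y : ℝ)) + δ * l ≤ (L x v : ℝ)) :=
          Ex_mono fun x _ => Ex_mono fun v _ => ind_mono fun h => by linarith
      _ ≤ _ := h1
      _ ≤ _ := by
          apply Real.exp_le_exp.mpr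
          rw [neg_le_neg_iff]
          have hk1 : (0 : ℝ) < (k : ℝ) + 1 := by positivity
          have hc1 : (0 : ℝ) < (l : ℝ) + c := by positivity
          rw [one_pow, one_mul, div_mul_eq_mul_div, div_le_div_iff₀ hk1 hc1]
          have : (l : ℝ) + c ≤ (k + 1) * l := by nlinarith
          have h6 : 0 ≤ 2 * δ ^ 2 * (l : ℝ) := by positivity
          calc 2 * δ ^ 2 * (l : ℝ) * (l + c) ≤ 2 * δ ^ 2 * (l : ℝ) * ((k + 1) * l) :=
                mul_le_mul_of_nonneg_left this h6
            _ = _ := by ring

end Pool.Agent.LCSV.TP
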