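import Pool.Agent.Work.MP_bec1e1_lv_helper15.PlantInterface
import Pool.Agent.Work.MP_bec1e1_lv_helper13.Conc

/-!
# TYPP: typical windows of the base path
-/

set_option autoImplicit false

open Filter Topology
open scoped BigOperators

namespace Pool.Agent.LCSV.TP

open Pool.Agent.LCSE Pool.Agent.LCSV

variable {k : ℕ}

theorem stmt_TYPP (hCU : Stmt_CU) (hDIR : Stmt_DIR) (hMGF : Stmt_MGF) (hMCD : Stmt_MCD) :
    Stmt_TYPP := by
  intro k hk2 hP ε η hε hη
  have hk : 0 < k := by omega
  have hkr : (0 : ℝ) < k := by exact_mod_cast hk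
  obtain ⟨δ, hδ, hD⟩ := hDIR k hk2 hP (ε / 8) (by positivity)
  set δ' := min δ ε with hδ'
  have hδ'0 : 0 < δ' := lt_min hδ hε
  set ε₁ := min δ' (ε / 8) with hε₁
  have hε₁0 : 0 < ε₁ := lt_min hδ'0 (by positivity)
  set η' := min (η / 2) (δ' ^ 2 / (k + 1)) with hη'
  have hη'0 : 0 < η' := lt_min (by positivity) (by positivity)
  set τ := min (δ' / 2) (1 / 2) with hτ
  have hτ0 : 0 < τ := lt_min (by positivity) (by norm_num)
  have hτδ : 2 * τ ≤ δ := by
    have h1 : τ ≤ δ' / 2 := min_le_left _ _
    have h2 : δ' ≤ δ := min_le_left _ _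
    linarith
  have hτ2 : τ ≤ 1 / 2 := min_le_right _ _
  refine ⟨τ, hτ0, ?_⟩
  have hC := hCU ε₁ η' hε₁0 hη'0 k
  filter_upwards [hC, eventually_ge_atTop (max 1 ⌈1 / η'⌉₊)] with l hCl hl
  have hl1 : 1 ≤ l := (le_max_left _ _).trans hl
  have hl0 : 0 < l := hl1
  have hlr : (1 : ℝ) ≤ l := by exact_mod_cast hl1
  have hlr0 : (0 : ℝ) < l := by linarith
  have hlη : 1 / η' ≤ l := by
    calc 1 / η' ≤ (⌈1 / η'⌉₊ : ℝ) := Nat.le_ceil _
      _ ≤ l := by exact_mod_cast (le_max_right _ _).trans hl
  set C := 2 / τ ^ 2 + 2 * k / τ ^ 2 + 1 with hCdef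
  have hC0 : 0 < C := by positivity
  filter_upwards [eventually_ge_atTop (max 1 ⌈4 * C / ε⌉₊)] with T hT
  have hT1 : 1 ≤ T := (le_max_left _ _).trans hT
  have hTr : (1 : ℝ) ≤ T := by exact_mod_cast hT1
  have hTr0 : (0 : ℝ) < T := by linarith
  have hTC : C / T ≤ ε / 4 := by
    have h1 : 4 * C / ε ≤ T := by
      calc 4 * C / ε ≤ (⌈4 * C / ε⌉₊ : ℝ) := Nat.le_ceil _
        _ ≤ T := by exact_mod_cast (le_max_right _ _).trans hT
    rw [div_le_iff₀ hε] at h1
    rw [div_le_iff₀ hTr0]
    linarith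
  intro g bad b win hg hg2 hbad hwin hb1 hb2 hmean
  have hrho := hP.rho_one
  have hrhok := hP.rho_lt
  have hb0 : 0 < b := by
    have h1 : (0 : ℝ) < (rho k - τ) * (T * l) := by
      apply mul_pos (by linarith) (by positivity)
    have h2 : (0 : ℝ) < b := lt_of_lt_of_le h1 hb1
    exact_mod_cast h2
  have hbr : (0 : ℝ) < b := by exact_mod_cast hb0
  have hbk : (b : ℝ) ≤ k * l * T := by
    refine hb2.trans ?_
    have h1 : rho k * (T * l) ≤ k * ((T : ℝ) * l) :=
      mul_le_mul_of_nonneg_right hrhok.le (by positivity)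
    linarith
  -- the bad event with large values
  set bad' : List (Fin k) → List (Fin k) → Prop :=
    fun x v => bad x v ∨ Phi k l v.length + δ' * l < (L x v : ℝ) with hbad'
  have hpb : ∀ c : ℕ, (Ex k l fun x => Ex k c fun v => ind (bad' x v)) ≤
      Real.exp (-(η' * l)) := by
    intro c
    have h1 : ∀ x v : List (Fin k), v.length = c → ind (bad' x v) ≤ ind (bad x v) +
        ind (Phi k l (c : ℝ) + δ' * l < (L x v : ℝ)) := by
      intro x v hv
      by_cases h2 : bad x v
      · rw [ind_of h2]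
        linarith [ind_le_one (bad' x v), ind_nonneg (Phi k l (c : ℝ) + δ' * l < (L x v : ℝ))]
      · rw [ind_of_not h2, zero_add]
        apply ind_mono
        rintro (h3 | h3)
        · exact absurd h3 h2
        · rwa [hv] at h3
    have h2 : (Ex k l fun x => Ex k c fun v => ind (bad' x v)) ≤
        (Ex k l fun x => Ex k c fun v => ind (bad x v)) +
        (Ex k l fun x => Ex k c fun v => ind (Phi k l (c : ℝ) + δ' * l < (L x v : ℝ))) := by
      rw [← Ex_add]
      refine Ex_mono fun x _ => ?_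
      rw [← Ex_add]
      exact Ex_mono fun v hv => h1 x v hv
    have h3 := upper_dev hMCD hk2 hP hδ'0 hl0 c
    have h4 : Real.exp (-(η * l)) ≤ Real.exp (-(2 * η' * l)) := by
      apply Real.exp_le_exp.mpr
      have : η' ≤ η / 2 := min_le_left _ _
      nlinarith
    have h5 : Real.exp (-(2 * δ' ^ 2 / (k + 1) * l)) ≤ Real.exp (-(2 * η' * l)) := by
      apply Real.exp_le_exp.mpr
      have h6 : η' ≤ δ' ^ 2 / (k + 1) := min_le_right _ _
      have h7 : 2 * δ' ^ 2 / ((k : ℝ) + 1) = 2 * (δ' ^ 2 / (k + 1)) := by ring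
      rw [h7]
      nlinarith
    have h6 : 2 * Real.exp (-(2 * η' * l)) ≤ Real.exp (-(η' * l)) := by
      have h7 : Real.exp (-(2 * η' * l)) = Real.exp (-(η' * l)) * Real.exp (-(η' * l)) := by
        rw [← Real.exp_add]; congr 1; ring
      have h8 : 2 * Real.exp (-(η' * l)) ≤ 1 := by
        rw [Real.exp_neg]
        have h9 : 2 ≤ Real.exp (η' * l) := by
          have h10 := Real.add_one_le_exp (η' * l)
          have h11 : 1 ≤ η' * l := by
            rw [div_le_iff₀ hη'0] at hlη
            linarith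
          linarith
        rw [← div_eq_mul_inv, div_le_one (Real.exp_pos _)]
        exact h9
      rw [h7]
      nlinarith [Real.exp_pos (-(η' * l))]
    linarith [hbad c]
  have hcu := hCl k g bad' hk hg hg2 hpb T b (by omega) (by
    have : (b : ℝ) ≤ ((k * l * T : ℕ) : ℝ) := by push_cast; exact hbk
    exact_mod_cast this)
  set m : ℝ := Exc k l g T fun xs => Ex k b fun y => (L xs.flatten y : ℝ) with hm
  have hco := conc hMGF hMCD hk hl0 hb0 hg hτ0 (show 0 < T by omega)
  -- pointwise bound
  set A1 : List (List (Fin k)) → List (Fin k) → Prop :=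
    fun xs y => (L xs.flatten y : ℝ) ≤ m - τ * l * T with hA1
  set A2 : List (List (Fin k)) → List (Fin k) → Prop := fun xs y =>
    ∃ vs : List (List (Fin k)), vs.length = T ∧ vs.flatten = y ∧
      ε₁ * T ≤ (List.zipWith (fun x v => ind (bad' x v)) xs vs).sum with hA2
  set B : List (Fin k) → List (Fin k) → Prop := fun x v =>
    bad x v ∨ ε * l < |(v.length : ℝ) - rho k * l| ∨ Phi k l v.length + ε * l < (L x v : ℝ) ∨
        (L x v : ℝ) < Phi k l v.length - ε * l with hB
  have hpt : ∀ xs : List (List (Fin k)), xs.length = T → (∀ x ∈ xs, x.length = l) →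
      ∀ y : List (Fin k), y.length = b →
      (List.zipWith (fun x v => ind (B x v)) xs (win xs y)).sum ≤
        ε / 2 * T + (T * ind (A1 xs y) + T * ind (A2 xs y)) := by
    intro xs hxs hxl y hy
    have htriv : (List.zipWith (fun x v => ind (B x v)) xs (win xs y)).sum ≤ T := by
      have := zipWith_sum_le_length (fun x v => ind (B x v)) (fun x v => ind_le_one _) xs (win xs y)
      rwa [hxs] at this
    by_cases h1 : A1 xs y
    · rw [ind_of h1]
      have := ind_nonneg (A2 xs y)
      have h3 : 0 ≤ (T : ℝ) * ind (A2 xs y) := by positivity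
      have h4 : 0 ≤ ε / 2 * (T : ℝ) := by positivity
      linarith
    by_cases h2 : A2 xs y
    · rw [ind_of h2]
      have := ind_nonneg (A1 xs y)
      have h3 : 0 ≤ (T : ℝ) * ind (A1 xs y) := by positivity
      have h4 : 0 ≤ ε / 2 * (T : ℝ) := by positivity
      linarith
    rw [ind_of_not h1, ind_of_not h2]
    obtain ⟨hw1, hw2, hw3⟩ := hwin xs y hxs
    set vs := win xs y with hvs
    have hvsT : vs.length = T := hw1.trans hxs
    have hbads : (List.zipWith (fun x v => ind (bad' x v)) xs vs).sum < ε₁ * T := by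
      by_contra hcon
      exact h2 ⟨vs, hvsT, hw2, not_lt.mp hcon⟩
    have hL : m - τ * l * T < (L xs.flatten y : ℝ) := not_le.mp h1
    have hsumc : (∑ i : Fin T, ((vs.get (i.cast hvsT.symm)).length : ℝ)) = b := by
      have h3 := zipWith_length_sum xs vs hw1
      rw [zipWith_sum_eq (fun _ v => ((v.length : ℕ) : ℝ)) T xs vs hxs hvsT] at h3
      rw [h3, hw2, hy]
    have hxli : ∀ i : Fin T, (xs.get (i.cast hxs.symm)).length = l := fun i =>
      hxl _ (List.get_mem _ _)
    have hdir := hD T l (fun i => ((vs.get (i.cast hvsT.symm)).length : ℝ))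
      (fun i => (L (xs.get (i.cast hxs.symm)) (vs.get (i.cast hvsT.symm)) : ℝ)) hlr0
      (fun i => Nat.cast_nonneg _)
      (fun i => ⟨by
        have := L_le_left (xs.get (i.cast hxs.symm)) (vs.get (i.cast hvsT.symm))
        rw [hxli i] at this
        exact_mod_cast this, by
        exact_mod_cast L_le_right (xs.get (i.cast hxs.symm)) (vs.get (i.cast hvsT.symm))⟩)
      (by
        have h3 := zipWith_sum_eq (fun x v => ind (bad' x v)) T xs vs hxs hvsT
        have h4 : (∑ i : Fin T, ind (Phi k l ((vs.get (i.cast hvsT.symm)).length : ℝ) + δ * l <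
            (L (xs.get (i.cast hxs.symm)) (vs.get (i.cast hvsT.symm)) : ℝ))) ≤
            ∑ i : Fin T, ind (bad' (xs.get (i.cast hxs.symm)) (vs.get (i.cast hvsT.symm))) := by
          refine Finset.sum_le_sum fun i _ => ind_mono fun h5 => Or.inr ?_
          have : δ' ≤ δ := min_le_left _ _
          nlinarith
        have h5 : ε₁ ≤ δ := (min_le_left _ _).trans (min_le_left _ _)
        have h6 : ε₁ * T ≤ δ * T := mul_le_mul_of_nonneg_right h5 hTr0.le
        linarith)
      (by
        have h3 := zipWith_sum_eq (fun x v => (L x v : ℝ)) T xs vs hxs hvsT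
        rw [← h3, ← hw3, hsumc]
        have h4 : 2 * τ * (l * T) ≤ δ * (l * T) :=
          mul_le_mul_of_nonneg_right hτδ (by positivity)
        have h5 : al k * ((l : ℝ) * T + b) = al k * ((T : ℝ) * l + b) := by ring
        rw [h5]
        nlinarith)
      (by
        rw [hsumc]
        refine le_trans ?_ hb1
        have : (rho k - δ) * ((l : ℝ) * T) ≤ (rho k - τ) * ((T : ℝ) * l) := by
          rw [mul_comm (l : ℝ) T]
          apply mul_le_mul_of_nonneg_right _ (by positivity)
          linarith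
        linarith)
    obtain ⟨hd1, hd2, -⟩ := hdir
    have e1 : (List.zipWith (fun _ v => ind (ε / 8 * l < |(v.length : ℝ) - rho k * l|)) xs vs).sum
        ≤ ε / 8 * T := by
      rw [zipWith_sum_eq (fun (_ : List (Fin k)) (v : List (Fin k)) =>
        ind (ε / 8 * l < |(v.length : ℝ) - rho k * l|)) T xs vs hxs hvsT]
      exact hd1
    have e2 : (List.zipWith (fun x v => ind ((L x v : ℝ) < Phi k l v.length - ε / 8 * l)) xs vs).sum
        ≤ ε / 8 * T := by
      rw [zipWith_sum_eq (fun (x : List (Fin k)) (v : List (Fin k)) =>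
        ind ((L x v : ℝ) < Phi k l v.length - ε / 8 * l)) T xs vs hxs hvsT]
      exact hd2
    have e3 : (List.zipWith (fun x v => ind (B x v)) xs vs).sum ≤
        (List.zipWith (fun x v => ind (bad' x v) +
          (ind (ε / 8 * l < |(v.length : ℝ) - rho k * l|) +
            ind ((L x v : ℝ) < Phi k l v.length - ε / 8 * l))) xs vs).sum := by
      apply zipWith_sum_mono
      intro x _ v _
      have hεl : ε / 8 * l ≤ ε * l := by nlinarith
      have hδl : δ' * l ≤ ε * l := mul_le_mul_of_nonneg_right (min_le_right _ _) hlr0.le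
      have n1 := ind_nonneg (bad' x v)
      have n2 := ind_nonneg (ε / 8 * l < |(v.length : ℝ) - rho k * l|)
      have n3 := ind_nonneg ((L x v : ℝ) < Phi k l v.length - ε / 8 * l)
      have n4 := ind_le_one (B x v)
      by_cases hb : B x v
      · rcases hb with h | h | h | h
        · rw [ind_of (show bad' x v from Or.inl h)]; linarith
        · rw [ind_of (show ε / 8 * l < |(v.length : ℝ) - rho k * l| by linarith)]; linarith
        · rw [ind_of (show bad' x v from Or.inr (by linarith))]; linarith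
        · rw [ind_of (show (L x v : ℝ) < Phi k l v.length - ε / 8 * l by linarith)]; linarith
      · rw [ind_of_not hb]; linarith
    rw [zipWith_sum_add, zipWith_sum_add] at e3
    have e4 : ε₁ * T ≤ ε / 8 * T := mul_le_mul_of_nonneg_right (min_le_right _ _) hTr0.le
    nlinarith
  -- expectation
  have hE : (Exc k l g T fun xs => Ex k b fun y =>
      (List.zipWith (fun x v => ind (B x v)) xs (win xs y)).sum) ≤
      ε / 2 * T + (T * (Exc k l g T fun xs => Ex k b fun y => ind (A1 xs y)) +
        T * (Exc k l g T fun xs => Ex k b fun y => ind (A2 xs y))) := by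
    calc _ ≤ Exc k l g T (fun xs => ε / 2 * T + (T * (Ex k b fun y => ind (A1 xs y)) +
          T * (Ex k b fun y => ind (A2 xs y)))) := by
          refine Exc_mono hg.nonneg fun xs h1 h2 => ?_
          calc _ ≤ Ex k b (fun y => ε / 2 * T + (T * ind (A1 xs y) + T * ind (A2 xs y))) :=
                Ex_mono fun y hy => hpt xs h1 h2 y hy
            _ = _ := by
                rw [Ex_add, Ex_const hk, Ex_add, Ex_const_mul, Ex_const_mul]
      _ = _ := by
          rw [Exc_add, Exc_const hg, Exc_add, Exc_const_mul, Exc_const_mul]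
  have hx : ∀ x : ℝ, 0 < x → Real.exp (-x) ≤ 1 / x := by
    intro x hx0
    rw [Real.exp_neg, ← one_div]
    apply one_div_le_one_div_of_le hx0
    linarith [Real.add_one_le_exp x]
  have hb3 : Real.exp (-(τ ^ 2 * l ^ 2 * T ^ 2 / (2 * b))) ≤ 2 * k / τ ^ 2 / T := by
    refine (hx _ (by positivity)).trans ?_
    rw [one_div_div, div_div, div_le_div_iff₀ (by positivity) (by positivity)]
    have h1 : 2 * (b : ℝ) * (τ ^ 2 * T) ≤ 2 * (k * l * T) * (τ ^ 2 * T) := by
      apply mul_le_mul_of_nonneg_right _ (by positivity)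
      linarith
    refine h1.trans ?_
    have h2 : 2 * ((k : ℝ) * l * T) * (τ ^ 2 * T) = 2 * k * (τ ^ 2 * T ^ 2) * l := by ring
    have h3 : 2 * (k : ℝ) * (τ ^ 2 * l ^ 2 * T ^ 2) = 2 * k * (τ ^ 2 * T ^ 2) * (l * l) := by ring
    rw [h2, h3]
    apply mul_le_mul_of_nonneg_left _ (by positivity)
    nlinarith
  have hb4 : Real.exp (-(τ ^ 2 * T / 2)) ≤ 2 / τ ^ 2 / T := by
    refine (hx _ (by positivity)).trans (le_of_eq ?_)
    field_simp
  have hb5 : Real.exp (-(T : ℝ)) ≤ 1 / T := hx _ hTr0
  have hfin : (Exc k l g T fun xs => Ex k b fun y => ind (A1 xs y)) +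
      (Exc k l g T fun xs => Ex k b fun y => ind (A2 xs y)) ≤ C / T := by
    have h1 : C / T = 2 / τ ^ 2 / T + 2 * k / τ ^ 2 / T + 1 / T := by
      rw [hCdef]; ring
    rw [h1]
    have h2 := hco
    rw [← hm] at h2
    linarith
  have : (T : ℝ) * ((Exc k l g T fun xs => Ex k b fun y => ind (A1 xs y)) +
      (Exc k l g T fun xs => Ex k b fun y => ind (A2 xs y))) ≤ T * (ε / 4) :=
    mul_le_mul_of_nonneg_left (hfin.trans hTC) hTr0.le
  refine hE.trans ?_
  nlinarith

end Pool.Agent.LCSV.TP
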